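import Pool.Agent.Helper74.LL.GoalsH

/-!
# Project LL (MP_cc6379_al), packet LL-UA0 (helper90)
-/

set_option autoImplicit false

open LaurentPolynomial Pool.Agent.Helper15.RA Pool.Agent.Helper45.AM

noncomputable section

namespace Pool.Agent.Helper90.LL.UA0

open Pool.Agent.Helper74.LL Pool.Agent.Helper74.LL.TD

/-- `Ge m w0` -/
theorem ge_w0 {S W H : Type} [Group W] [Ring H] [Algebra ℤ[T;T⁻¹] H] (X : TD S W H) (hKD1 : KD1)
    (a c : S) (hac : a ≠ c) (m : ℕ) (h : m ≤ X.α (w0 X.cs a c)) : X.Ge m (w0 X.cs a c) := by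
  refine ⟨1, w0 X.cs a c, 1, {a, c}, Or.inr ⟨a, c, rfl⟩,
    (hKD1 S W X.M X.cs a c hac (X.fin a c)).1.1, by simp, by simp, h⟩

theorem t (hKD1 : KD1) (hKD2 : KD2) (hHWT : HWT) (hHW0 : HW0) (hRA0 : RA0) (hULOW : ULOW) :
    UA0 := by
  intro S W H _ _ _ X M n a b c x y hId hN0 hN1 hab hac hbc hMac hMbc hx hy hxc hyc hn
  obtain ⟨hLg, -, -, -, hW⟩ := hHWT S W H X
  obtain ⟨k1, k2, -, -, -⟩ := hW a b hab
  obtain ⟨k3, -, -, -, -⟩ := hW a c hac
  -- lengths
  have hss : ∀ i : S, X.cs.simple i * X.cs.simple i = 1 := fun i => X.cs.simple_mul_simple_self i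
  have lxa : X.cs.length (x * X.cs.simple a) = X.cs.length x + 1 := hx a (by simp)
  have lby : X.cs.length (X.cs.simple b * y) = X.cs.length y + 1 := hy b (by simp)
  have dxa : X.cs.IsRightDescent (x * X.cs.simple a) a := by
    unfold CoxeterSystem.IsRightDescent
    rw [mul_assoc, hss, mul_one, lxa]
    omega
  have dby : X.cs.IsLeftDescent (X.cs.simple b * y) b := by
    unfold CoxeterSystem.IsLeftDescent
    rw [← mul_assoc, hss, one_mul, lby]
    omega
  obtain ⟨⟨x₅, hx5, ex, lx5⟩, -⟩ := (hKD2 S W X.M X.cs).1 a c hac (X.fin a c) _ dxa hxc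
  obtain ⟨⟨y₅, hy5, ey, ly5⟩, -⟩ := (hKD2 S W X.M X.cs).2.1 b c hbc (X.fin b c) _ dby hyc
  obtain ⟨r1, r2⟩ := hRA0 S W X.M X.cs hLg a b c x₅ y₅ hab hac hbc hMac hMbc hx5 hy5
  obtain ⟨⟨-, -, -, lac, -⟩, -, -, ⟨-, dac, -, -⟩, -⟩ := hKD1 S W X.M X.cs a c hac (X.fin a c)
  obtain ⟨⟨-, -, -, lbc, -⟩, -, -, ⟨-, -, -, dbc⟩, -⟩ := hKD1 S W X.M X.cs b c hbc (X.fin b c)
  have lab : X.cs.length (X.cs.simple a * X.cs.simple b) = 2 :=
    (hKD1 S W X.M X.cs a b hab (X.fin a b)).2.2.2.2.2.2.2.2.1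
  set w := w0 X.cs a c with hw
  set w' := w0 X.cs b c with hw'
  set sc := X.cs.simple c with hsc
  have lh : X.cs.length (w * sc) + 1 = X.M a c := by
    rw [← lac]
    exact (X.cs.isRightDescent_iff).mp dac
  have lk : X.cs.length (sc * w') + 1 = X.M b c := by
    rw [← lbc]
    exact (X.cs.isLeftDescent_iff).mp dbc
  have t1 := X.cs.length_mul_le (x₅ * (w * sc)) (w' * y₅)
  have t2 := X.cs.length_mul_le x₅ (w * sc)
  have t3 := X.cs.length_mul_le w' y₅
  have t4 := X.cs.length_mul_le (x₅ * (w * sc)) ((sc * w') * y₅)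
  have t5 := X.cs.length_mul_le (sc * w') y₅
  rw [← mul_assoc] at t1 t4
  have lw'y : X.cs.length (w' * y₅) = X.M b c + X.cs.length y₅ := by rw [← ey, ly5]
  -- products
  have m1 : X.D.t (x₅ * (w * sc)) * X.D.t (w' * y₅) = X.D.t (x₅ * (w * sc) * (w' * y₅)) := by
    refine X.D.mul _ _ ?_
    rw [← mul_assoc]
    omega
  have m2 : X.D.t (x₅ * (w * sc)) * X.D.t ((sc * w') * y₅) =
      X.D.t (x₅ * (w * sc) * ((sc * w') * y₅)) := by
    refine X.D.mul _ _ ?_
    rw [← mul_assoc]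
    omega
  have e0 : X.D.t x * X.D.t (X.cs.simple a * X.cs.simple b) * X.D.t y =
      X.D.t (x * X.cs.simple a) * X.D.t (X.cs.simple b * y) := by
    rw [← X.D.mul (X.cs.simple a) (X.cs.simple b) (by
      rw [lab, X.cs.length_simple, X.cs.length_simple]),
      ← X.D.mul x (X.cs.simple a) (by rw [lxa, X.cs.length_simple]),
      ← X.D.mul (X.cs.simple b) y (by rw [lby, X.cs.length_simple]; omega)]
    noncomm_ring
  by_cases hGe : X.Ge (M + 1) w
  · refine hULOW S W H X M n a b c x x₅ y hId hN0 hN1 hab hac hbc hMac hx hy hx5 ex hn hGe ?_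
    rw [← hw, ← hsc, ey, m1]
    exact LP.t M _
  · have hα : X.L w ≤ M := by
      rw [← ((hHW0 S W H X).2.2 a c hac).1]
      by_contra hcon
      exact hGe (ge_w0 X hKD1 a c hac (M + 1) (by omega))
    have g1 := k3 hMac a
    have g2 := k3 hMac b
    have g3 := k3 hMac c
    obtain ⟨h1, -, h3, h4, -⟩ := g_h1 S W H X.M X.cs X.L X.D.toHecke1.toHecke0
    have q1 : X.D.t (x₅ * w) = X.D.t (x₅ * (w * sc)) * X.D.t sc := by
      rw [X.D.mul (x₅ * (w * sc)) sc ?_]
      · congr 1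
        rw [mul_assoc, mul_assoc w, hsc, hss, mul_one]
      · have : x₅ * (w * sc) * sc = x₅ * w := by
          rw [mul_assoc, mul_assoc w, hsc, hss, mul_one]
        rw [this, ← ex, lx5, X.cs.length_simple]
        omega
    have q2 : X.D.t (w' * y₅) = X.D.t sc * X.D.t ((sc * w') * y₅) := by
      have : sc * ((sc * w') * y₅) = w' * y₅ := by
        rw [← mul_assoc, ← mul_assoc, hsc, hss, one_mul]
      rw [X.D.mul sc ((sc * w') * y₅) ?_, this]
      rw [this, X.cs.length_simple, lw'y]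
      omega
    have q3 : X.D.t sc * X.D.t sc = xi (X.L sc) • X.D.t sc + 1 := by
      have := h3 c sc (by rw [hsc, hss, X.cs.length_one, X.cs.length_simple])
      rw [← hsc, hss, h1] at this
      exact this
    have e1 : X.D.t x * X.D.t (X.cs.simple a * X.cs.simple b) * X.D.t y =
        X.D.t (x₅ * (w * sc) * ((sc * w') * y₅)) +
          xi (X.L sc) • X.D.t (x₅ * (w * sc) * (w' * y₅)) := by
      rw [e0, ex, ey, ← m1, ← m2, q2]
      rw [q1]
      calc X.D.t (x₅ * (w * sc)) * X.D.t sc * (X.D.t sc * X.D.t ((sc * w') * y₅))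
          = X.D.t (x₅ * (w * sc)) * (X.D.t sc * X.D.t sc) * X.D.t ((sc * w') * y₅) := by
            noncomm_ring
        _ = _ := by
            rw [q3, mul_add, add_mul, mul_one, mul_smul_comm, smul_mul_assoc, add_comm]
            congr 2
            noncomm_ring
    rw [e1]
    refine LP.mono (k := (X.L sc : ℤ) + 1) ?_ ?_
    · refine LP.add ((LP.t M _).mono (by omega)) (LP.smul_xi (LP.t M _) le_rfl)
    · refine le_trans ?_ (le_max_right _ _)
      rw [k2]
      push_cast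
      have g1' : (6 : ℤ) * X.L (X.cs.simple a) + 1 ≤ X.L w := by exact_mod_cast g1
      have g2' : (6 : ℤ) * X.L (X.cs.simple b) + 1 ≤ X.L w := by exact_mod_cast g2
      have g3' : (6 : ℤ) * X.L sc + 1 ≤ X.L w := by exact_mod_cast g3
      have hα' : (X.L w : ℤ) ≤ M := by exact_mod_cast hα
      have p1 : (0 : ℤ) ≤ X.L (X.cs.simple a) := Int.natCast_nonneg _
      have p2 : (0 : ℤ) ≤ X.L (X.cs.simple b) := Int.natCast_nonneg _
      have p3 : (0 : ℤ) ≤ X.L sc := Int.natCast_nonneg _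
      linarith

end Pool.Agent.Helper90.LL.UA0
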